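import Pool.Agent.U728.KP.Fin
import Pool.Agent.U44.KP.HAM
import Pool.Agent.U55.KP.BLOW
import Pool.Agent.U324.KP.EXT
import Pool.Agent.U94.KP.SYND
import Pool.Agent.U88.KP.NUM
import Pool.Agent.U27.KP.UP

set_option autoImplicit false

/-!
# Saturation and semi-saturation of the square in the hypercube are asymptotically different

`Q`, `SemiSat`, `sSat`, `HasC4`, `Sat`, `satNum` are the definitions of the starting hand-in `Separation` of this problem:
`sSat n` is the number `s-sat(Q_n, Q_2)` and `satNum n` the number `sat(Q_n, Q_2)`.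

The lower bound `sat(Q_n, Q_2) ≥ 3.1 * 2 ^ n` for large `n` is the starting result. New: `s-sat(Q_n, Q_2) ≤ 3.09 * 2 ^ n` for all
large `n`, by coverings of radius one of all cubes of large dimension with at most `1.03 * 2 ^ n / (n + 1)` words.
-/

namespace Pool.Agent.Results.MP_71830d_co.StrictSeparation

open Pool.Agent.Results.MP_71830d_co.Separation Pool.Agent.U728.KP Filter

/-- Question 2, positive answer. (1) For all sufficiently large `n` one has
`s-sat(Q_n, Q_2) ≤ 3.09 * 2 ^ n` and `sat(Q_n, Q_2) ≥ 3.1 * 2 ^ n`.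
(2) `limsup s-sat(Q_n, Q_2) / 2 ^ n < liminf sat(Q_n, Q_2) / 2 ^ n`. -/
theorem result :
    (∃ n₁ : ℕ, ∀ n ≥ n₁, (sSat n : ℝ) ≤ 3.09 * 2 ^ n ∧ 3.1 * (2 : ℝ) ^ n ≤ satNum n) ∧
    limsup (fun n : ℕ => (((sSat n : ℝ) / 2 ^ n : ℝ) : EReal)) atTop <
      liminf (fun n : ℕ => (((satNum n : ℝ) / 2 ^ n : ℝ) : EReal)) atTop :=
  final (Pool.Agent.U88.KP.t_NUM Pool.Agent.U44.KP.t_HAM Pool.Agent.U55.KP.BLOW.t_BLOW Pool.Agent.U324.KP.t_SURJ
    Pool.Agent.U324.KP.t_EXT Pool.Agent.U94.KP.t_SYND) Pool.Agent.U27.KP.t_UP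

end Pool.Agent.Results.MP_71830d_co.StrictSeparation
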